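import Pool.Agent.Q218.HB.Stm

set_option autoImplicit false

namespace Pool.Agent.Q153.HB

open Pool.Agent.Q218.HB

theorem posK {G : Type} [Fintype G] [AddCommGroup G] (p : G → ℝ) (a : G) :
    0 ≤ ∑ x, p x * (2 * p x - p (x + a) - p (x - a)) := by
  have h1 : ∑ x, p x * p (x - a) = ∑ x, p (x + a) * p x := by
    rw [← Equiv.sum_comp (Equiv.addRight a) (fun x => p x * p (x - a))]
    refine Finset.sum_congr rfl fun x _ => ?_
    simp
  have h2 : ∑ x, p x ^ 2 = ∑ x, p (x + a) ^ 2 := by
    rw [← Equiv.sum_comp (Equiv.addRight a) (fun x => p x ^ 2)]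
    rfl
  have h3 : ∑ x, p x * (2 * p x - p (x + a) - p (x - a)) = ∑ x, (p (x + a) - p x) ^ 2 := by
    calc ∑ x, p x * (2 * p x - p (x + a) - p (x - a))
        = ∑ x, p x ^ 2 + ∑ x, p x ^ 2 - ∑ x, p (x + a) * p x - ∑ x, p x * p (x - a) := by
          rw [← Finset.sum_add_distrib, ← Finset.sum_sub_distrib, ← Finset.sum_sub_distrib]
          refine Finset.sum_congr rfl fun x _ => ?_
          ring
      _ = ∑ x, p (x + a) ^ 2 + ∑ x, p x ^ 2 - ∑ x, p (x + a) * p x - ∑ x, p (x + a) * p x := by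
          rw [h1]
          nth_rewrite 1 [h2]
          rfl
      _ = ∑ x, (p (x + a) - p x) ^ 2 := by
          rw [← Finset.sum_add_distrib, ← Finset.sum_sub_distrib, ← Finset.sum_sub_distrib]
          refine Finset.sum_congr rfl fun x _ => ?_
          ring
  rw [h3]
  exact Finset.sum_nonneg fun x _ => sq_nonneg _

theorem mulK (d n : ℕ) [NeZero n] (i : Fin d) (ε : ℝ) (u : Tor d n → ℂ) (x : Tor d n) :
    ∑ y, Hm (two i) (fun _ => ε ^ 2) x y * u y =
      2 * u x - u (x + (ev i + ev i)) - u (x - (ev i + ev i)) + ((ε ^ 2 : ℝ) : ℂ) * u x := by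
  have h : ∀ y, Hm (two i) (fun _ => ε ^ 2) x y * u y =
      2 * (if y = x then u y else 0) - (if y = x + (ev i + ev i) then u y else 0) -
        (if y = x - (ev i + ev i) then u y else 0) + (if x = y then ((ε ^ 2 : ℝ) : ℂ) * u y else 0) := by
    intro y
    unfold Hm two
    rw [add_assoc x, sub_sub x]
    push_cast
    split_ifs <;> push_cast <;> ring
  rw [Finset.sum_congr rfl fun y _ => h y, Finset.sum_add_distrib, Finset.sum_sub_distrib,
    Finset.sum_sub_distrib, ← Finset.mul_sum]
  simp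

theorem kon : S_KON := by
  intro d n _ i ε hε f
  set A : Matrix (Tor d n) (Tor d n) ℂ := Hm (two i) (fun _ => ε ^ 2) with hA
  by_cases hu : IsUnit A.det
  · set u : Tor d n → ℂ := fun y => ∑ z, A⁻¹ y z * f z with hudef
    have hmul : ∀ x, ∑ y, A x y * u y = f x := by
      intro x
      have h1 : (A.mulVec (A⁻¹.mulVec f)) x = f x := by
        rw [Matrix.mulVec_mulVec, Matrix.mul_nonsing_inv _ hu, Matrix.one_mulVec]
      exact h1
    have hK : ∀ x, ∑ y, Km i ε x y * f y = ((ε ^ 2 : ℝ) : ℂ) * u x := by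
      intro x
      rw [hudef]
      simp only
      rw [Finset.mul_sum]
      refine Finset.sum_congr rfl fun y _ => ?_
      unfold Km
      rw [Matrix.smul_apply, smul_eq_mul, ← hA, mul_assoc]
    set a : Tor d n := ev i + ev i with ha
    have hf : ∀ x, ‖f x‖ ^ 2 = ‖2 * u x - u (x + a) - u (x - a)‖ ^ 2 +
        2 * ε ^ 2 * ((u x).re * (2 * (u x).re - (u (x + a)).re - (u (x - a)).re)) +
        2 * ε ^ 2 * ((u x).im * (2 * (u x).im - (u (x + a)).im - (u (x - a)).im)) +
        ‖((ε ^ 2 : ℝ) : ℂ) * u x‖ ^ 2 := by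
      intro x
      rw [← hmul x, hA, mulK d n i ε u x, Complex.sq_norm, Complex.sq_norm, Complex.sq_norm,
        Complex.normSq_apply, Complex.normSq_apply, Complex.normSq_apply]
      simp only [Complex.add_re, Complex.add_im, Complex.sub_re, Complex.sub_im, Complex.mul_re,
        Complex.mul_im, Complex.re_ofNat, Complex.im_ofNat, Complex.ofReal_re, Complex.ofReal_im]
      ring
    have p1 := posK (fun x => (u x).re) a
    have p2 := posK (fun x => (u x).im) a
    rw [Finset.sum_congr rfl fun x _ => hf x, Finset.sum_add_distrib, Finset.sum_add_distrib,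
      Finset.sum_add_distrib, ← Finset.mul_sum, ← Finset.mul_sum,
      Finset.sum_congr rfl fun x _ => by rw [hK x]]
    have p3 : 0 ≤ ∑ x, ‖2 * u x - u (x + a) - u (x - a)‖ ^ 2 := Finset.sum_nonneg fun x _ => sq_nonneg _
    have p4 : 0 ≤ 2 * ε ^ 2 := by positivity
    have p5 := mul_nonneg p4 p1
    have p6 := mul_nonneg p4 p2
    linarith
  · have h0 : A⁻¹ = 0 := Matrix.nonsing_inv_apply_not_isUnit _ hu
    have hK : ∀ x, ∑ y, Km i ε x y * f y = 0 := by
      intro x
      refine Finset.sum_eq_zero fun y _ => ?_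
      unfold Km
      rw [← hA, h0]
      simp
    rw [Finset.sum_congr rfl fun x _ => by rw [hK x]]
    simp only [norm_zero]
    rw [Finset.sum_congr rfl fun x _ => by rw [zero_pow (two_ne_zero)]]
    rw [Finset.sum_const_zero]
    exact Finset.sum_nonneg fun x _ => sq_nonneg _

end Pool.Agent.Q153.HB
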